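import Pool.Agent.Helper26.DV.Defs
import Pool.Agent.Helper87.MQ.Density

/-!
# Density for maps with an arbitrary degree vector
-/

set_option autoImplicit false

namespace Pool.Agent.Helper87.DV

open MvPolynomial Pool.Agent.Helper26.DV Pool.Agent.Helper86.MQ
open Pool.Agent.Helper87.MQ (toQp ratArr RatGood ratArr_finite rat_density norm_pole red_lift
  totalDegree_le_of_coeff coeff_eq_zero_of_gt)

variable {m : ℕ}

/-- The self-maps of affine `(m + 1)`-space over `ℚ` whose `i`-th component has degree at most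
`w i`, and all of whose coefficients have height at most `B`. -/
def vbox (m : ℕ) (w : Fin (m + 1) → ℕ) (B : ℕ) :
    Set (Fin (m + 1) → MvPolynomial (Fin (m + 1)) ℚ) :=
  {Φ | ∀ i, (Φ i).totalDegree ≤ w i ∧
    ∀ s, |(coeff s (Φ i)).num| ≤ (B : ℤ) ∧ (coeff s (Φ i)).den ≤ B}

theorem vP_injective {R : Type*} [CommRing R] (w : Fin (m + 1) → ℕ) :
    Function.Injective (fun (c : VIdx m w → R) => vP c) := by
  intro c c' h
  funext k
  have h1 := congrArg (coeff (k.2 : Fin (m + 1) →₀ ℕ)) (congrFun h k.1)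
  dsimp only at h1
  rwa [coeff_vP, coeff_vP] at h1

theorem vbox_eq (w : Fin (m + 1) → ℕ) (B : ℕ) (hB : 1 ≤ B) :
    vbox m w B = (fun (c : VIdx m w → ℚ) => vP c) '' ratArr (VIdx m w) B := by
  ext Φ
  constructor
  · intro h
    refine ⟨fun k => coeff (k.2 : Fin (m + 1) →₀ ℕ) (Φ k.1), fun k => (h k.1).2 _, ?_⟩
    exact vP_coeff Φ fun i s hs => coeff_eq_zero_of_gt _ _ (h i).1 s hs
  · rintro ⟨c, hc, rfl⟩ i
    refine ⟨totalDegree_le_of_coeff _ _ fun s hs => coeff_vP_of_gt c i hs, fun s => ?_⟩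
    by_cases hs : s.degree ≤ w i
    · have h1 := coeff_vP c i ⟨s, hs⟩
      dsimp only at h1 ⊢
      rw [h1]
      exact hc _
    · dsimp only
      rw [coeff_vP_of_gt c i hs]
      simpa using hB

theorem vpre_of_ratGood (w : Fin (m + 1) → ℕ) (q : ℕ) [hq : Fact q.Prime]
    (BB : Finset (VIdx m w → ZMod q)) (v : VIdx m w → ℚ) (h : RatGood q (vsp m w) BB v) :
    ∃ c, c ∉ BB ∧ VPre q m w (toQp q (vP v)) ∧ VRed (toQp q (vP v)) c := by
  obtain ⟨h1, h2, h3, h4, c, hc, h5⟩ := h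
  have hcoef : ∀ k : VIdx m w, coeff (k.2 : Fin (m + 1) →₀ ℕ) (toQp q (vP v) k.1) =
      ((v k : ℚ) : ℚ_[q]) := by
    intro k
    rw [toQp, coeff_map, coeff_vP]
    exact eq_ratCast (algebraMap ℚ ℚ_[q]) (v k)
  refine ⟨c, hc, ⟨?_, ?_, ?_⟩, ?_⟩
  · intro i
    apply totalDegree_le_of_coeff
    intro s hs
    rw [toQp, coeff_map, coeff_vP_of_gt v i hs, map_zero]
  · have h6 : coeff (Finsupp.single (Fin.last m) (w (Fin.last m)))
        (toQp q (vP v) (Fin.last m)) = ((v (vsp m w) : ℚ) : ℚ_[q]) := hcoef (vsp m w)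
    rw [h6]
    exact norm_pole q _ h1 h2 h3
  · intro i s hs
    by_cases hsd : s.degree ≤ w i
    · have := hcoef ⟨i, ⟨s, hsd⟩⟩
      dsimp only at this
      rw [this]
      refine Padic.norm_rat_le_one (h4 _ fun h6 => hs ?_)
      rw [vsp] at h6
      have h7 : i = Fin.last m := congrArg Sigma.fst h6
      subst h7
      refine ⟨rfl, ?_⟩
      have h8 := eq_of_heq (Sigma.mk.inj h6).2
      exact congrArg Subtype.val h8
    · rw [toQp, coeff_map, coeff_vP_of_gt v i hsd, map_zero, norm_zero]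
      exact zero_le_one
  · intro k hk
    rw [hcoef k]
    exact red_lift q (v k) (h4 k hk) (c k) (h5 k hk)

/-- **Density.** -/
theorem v_density (w : Fin (m + 1) → ℕ) (C : ℕ)
    (Pri : Set ℕ) (hdiv : ¬ Summable (fun q : Pri => (1 : ℝ) / (q : ℕ))) (hPri : ∀ q ∈ Pri, q.Prime)
    (M₀ : ℕ) (ε : ℝ) (hε : 0 < ε) :
    ∃ (P : Finset ℕ) (K : ℕ), (∀ q ∈ P, q ∈ Pri ∧ q.Prime ∧ M₀ ≤ q) ∧
      ∀ BB : ∀ (q : ℕ) [Fact q.Prime], Finset (VIdx m w → ZMod q),
        (∀ (q : ℕ) [Fact q.Prime], (BB q).card * q ≤ C * q ^ Fintype.card (VIdx m w)) →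
      ∀ B : ℕ, K ≤ B → (vbox m w B).Finite ∧
      (1 - ε) * ((vbox m w B).ncard : ℝ) ≤
        (({Φ ∈ vbox m w B | ∃ q ∈ P, ∃ _ : Fact q.Prime, ∃ c, c ∉ BB q ∧
          VPre q m w (toQp q Φ) ∧ VRed (toQp q Φ) c}).ncard : ℝ) := by
  classical
  obtain ⟨P, K, hP, h⟩ := rat_density (J := VIdx m w) (vsp m w) C Pri hdiv hPri M₀ ε hε
  refine ⟨P, max K 1, hP, ?_⟩
  intro BB hBB B hB
  have hfin : (vbox m w B).Finite := by
    rw [vbox_eq w B ((le_max_right _ _).trans hB)]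
    exact (ratArr_finite B).image _
  refine ⟨hfin, ?_⟩
  have h1 := h BB hBB B ((le_max_left _ _).trans hB)
  have h2 : (vbox m w B).ncard = (ratArr (VIdx m w) B).ncard := by
    rw [vbox_eq w B ((le_max_right _ _).trans hB)]
    exact Set.ncard_image_of_injective _ (vP_injective w)
  rw [h2]
  refine h1.trans ?_
  rw [← Set.ncard_image_of_injective _ (vP_injective (R := ℚ) w)]
  have hsub : (fun (c : VIdx m w → ℚ) => vP c) ''
      {v ∈ ratArr (VIdx m w) B |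
        ∃ q ∈ P, ∃ _ : Fact q.Prime, RatGood q (vsp m w) (BB q) v} ⊆
      {Φ ∈ vbox m w B | ∃ q ∈ P, ∃ _ : Fact q.Prime, ∃ c, c ∉ BB q ∧
          VPre q m w (toQp q Φ) ∧ VRed (toQp q Φ) c} := by
    rintro _ ⟨v, ⟨hv1, q, hq, hF, hv2⟩, rfl⟩
    refine ⟨?_, q, hq, hF, vpre_of_ratGood w q (BB q) v hv2⟩
    rw [vbox_eq w B ((le_max_right _ _).trans hB)]
    exact ⟨v, hv1, rfl⟩
  exact_mod_cast Set.ncard_le_ncard hsub (hfin.subset fun Φ hΦ => hΦ.1)

end Pool.Agent.Helper87.DV
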