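import Pool.Agent.Helper87.DV.Gen

/-!
# The generic condition modulo `p` gives the conditions over the `p`-adic numbers
-/

set_option autoImplicit false

namespace Pool.Agent.Helper87.DV

open MvPolynomial Pool.Agent.Helper26.DV

section assemble

variable {m : ℕ} {K : Type*} [Field K]

/-- the matrix `L` -/
def bigL (L : Matrix (Fin m) (Fin m) K) (l : Fin m → K) :
    Matrix (Fin (m + 1)) (Fin (m + 1)) K :=
  Matrix.of (Fin.snoc (α := fun _ => Fin (m + 1) → K)
    (fun i => Fin.snoc (α := fun _ => K) (L i) (l i)) (Fin.snoc (α := fun _ => K) 0 1))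

/-- the matrix `U` -/
def bigU (U : Matrix (Fin m) (Fin m) K) (g : Fin m → K) (a : K) :
    Matrix (Fin (m + 1)) (Fin (m + 1)) K :=
  Matrix.of (Fin.snoc (α := fun _ => Fin (m + 1) → K)
    (fun i => Fin.snoc (α := fun _ => K) (U i) 0) (Fin.snoc (α := fun _ => K) g a))

/-- the extension of a vector by zero -/
def bigv (b : Fin m → K) : Fin (m + 1) → K := Fin.snoc (α := fun _ => K) b 0

variable (L U : Matrix (Fin m) (Fin m) K) (l g b : Fin m → K) (a : K)

theorem bigL_cc (i j : Fin m) : bigL L l i.castSucc j.castSucc = L i j := by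
  simp [bigL]

theorem bigL_cl (i : Fin m) : bigL L l i.castSucc (Fin.last m) = l i := by
  simp [bigL]

theorem bigL_lc (j : Fin m) : bigL L l (Fin.last m) j.castSucc = 0 := by
  simp [bigL]

theorem bigL_ll : bigL L l (Fin.last m) (Fin.last m) = 1 := by
  simp [bigL]

theorem bigU_cc (i j : Fin m) : bigU U g a i.castSucc j.castSucc = U i j := by
  simp [bigU]

theorem bigU_cl (i : Fin m) : bigU U g a i.castSucc (Fin.last m) = 0 := by
  simp [bigU]

theorem bigU_lc (j : Fin m) : bigU U g a (Fin.last m) j.castSucc = g j := by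
  simp [bigU]

theorem bigU_ll : bigU U g a (Fin.last m) (Fin.last m) = a := by
  simp [bigU]

theorem bigv_c (i : Fin m) : bigv b i.castSucc = b i := by
  simp [bigv]

theorem bigv_l : bigv b (Fin.last m) = 0 := by
  simp [bigv]

theorem bigU_det (hU : U.det ≠ 0) (ha : a ≠ 0) : (bigU U g a).det ≠ 0 := by
  intro h
  obtain ⟨v, hv, hv0⟩ := Matrix.exists_mulVec_eq_zero_iff.2 h
  apply hv
  have h1 : (fun i : Fin m => v i.castSucc) = 0 := by
    by_contra hne
    apply hU
    refine Matrix.exists_mulVec_eq_zero_iff.1 ⟨_, hne, ?_⟩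
    funext i
    have h2 := congrFun hv0 i.castSucc
    rw [Matrix.mulVec, dotProduct, Fin.sum_univ_castSucc, bigU_cl, zero_mul, add_zero] at h2
    rw [Matrix.mulVec, dotProduct]
    simp only [bigU_cc] at h2
    exact h2
  have h3 : v (Fin.last m) = 0 := by
    have h2 := congrFun hv0 (Fin.last m)
    rw [Matrix.mulVec, dotProduct, Fin.sum_univ_castSucc, bigU_ll] at h2
    rw [Finset.sum_eq_zero, zero_add] at h2
    · exact (mul_eq_zero.1 h2).resolve_left ha
    · intro k _
      have h4 : v k.castSucc = 0 := congrFun h1 k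
      rw [h4, mul_zero]
  funext i
  refine Fin.lastCases ?_ (fun i => ?_) i
  · exact h3
  · exact congrFun h1 i

/-- the extension by zero is linear -/
def bigl : (Fin m → K) →ₗ[K] (Fin (m + 1) → K) where
  toFun := bigv
  map_add' x y := by
    funext i
    refine Fin.lastCases ?_ (fun i => ?_) i
    · rw [Pi.add_apply, bigv_l, bigv_l, bigv_l, add_zero]
    · rw [Pi.add_apply, bigv_c, bigv_c, bigv_c, Pi.add_apply]
  map_smul' r x := by
    funext i
    refine Fin.lastCases ?_ (fun i => ?_) i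
    · rw [Pi.smul_apply, bigv_l, bigv_l, smul_zero]
    · rw [Pi.smul_apply, bigv_c, bigv_c, Pi.smul_apply]
      rfl

theorem bigl_apply : bigl b = bigv b := rfl

theorem diag_bigv {w : Fin (m + 1) → ℕ} (hw' : ∀ i : Fin m, w i.castSucc < w (Fin.last m))
    (u : Fin m → K) :
    (vD w (bigU U g a)).mulVec (bigv u) = bigv ((dg (wl w) U).mulVec u) := by
  funext i
  rw [vD, Matrix.mulVec, dotProduct, Fin.sum_univ_castSucc, bigv_l, mul_zero, add_zero]
  refine Fin.lastCases ?_ (fun i => ?_) i
  · rw [bigv_l]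
    refine Finset.sum_eq_zero fun k _ => ?_
    rw [Matrix.of_apply, if_neg (hw' k).ne', zero_mul]
  · rw [bigv_c, Matrix.mulVec, dotProduct]
    refine Finset.sum_congr rfl fun k _ => ?_
    rw [Matrix.of_apply, bigU_cc, bigv_c]
    rfl

theorem diag_pow_bigv {w : Fin (m + 1) → ℕ} (hw' : ∀ i : Fin m, w i.castSucc < w (Fin.last m))
    (u : Fin m → K) (k : ℕ) :
    ((vD w (bigU U g a)) ^ k).mulVec (bigv u) = bigv (((dg (wl w) U) ^ k).mulVec u) := by
  induction k with
  | zero => rw [pow_zero, pow_zero, Matrix.one_mulVec, Matrix.one_mulVec]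
  | succ k ih =>
    rw [pow_succ', pow_succ', ← Matrix.mulVec_mulVec, ih, diag_bigv U g a hw',
      Matrix.mulVec_mulVec]

/-- the determinant of the block diagonal part -/
theorem det_vD {w : Fin (m + 1) → ℕ} (M : Matrix (Fin (m + 1)) (Fin (m + 1)) K)
    (hM : ∀ i j, M i j ≠ 0 → w j ≤ w i) : (vD w M).det = M.det := by
  classical
  have h1 : M.BlockTriangular (fun i => OrderDual.toDual (w i)) := by
    intro i j hij
    by_contra h
    exact absurd (hM i j h) (not_le.2 hij)
  have h2 : (vD w M).BlockTriangular (fun i => OrderDual.toDual (w i)) := by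
    intro i j hij
    have h3 : w i < w j := hij
    rw [vD, Matrix.of_apply, if_neg h3.ne]
  rw [h1.det, h2.det]
  refine Finset.prod_congr rfl fun a _ => ?_
  congr 1
  ext i j
  have h3 : w i.1 = w j.1 := by
    have := i.2.trans j.2.symm
    exact OrderDual.toDual.injective this
  rw [Matrix.toSquareBlock_def, Matrix.toSquareBlock_def, Matrix.of_apply, Matrix.of_apply,
    vD, Matrix.of_apply, if_pos h3]

end assemble

variable {m : ℕ} {w : Fin (m + 1) → ℕ}

section

variable {p : ℕ} [hp : Fact p.Prime]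

/-- The generic condition modulo `p` gives the conditions over the `p`-adic numbers. -/
theorem vdom_of (hw : ∀ i : Fin m, 1 ≤ w i.castSucc)
    (hw' : ∀ i : Fin m, w i.castSucc < w (Fin.last m)) (h0 : 1 ≤ w (Fin.last m))
    (hpd : w (Fin.last m) < p)
    {Φ : Fin (m + 1) → MvPolynomial (Fin (m + 1)) ℚ_[p]} (hΦ : VPre p m w Φ)
    {c : VIdx m w → ZMod p} (hc : VRed Φ c) (hT : RV hw c ≠ 0) : VDom w Φ := by
  classical
  have hp1 : (1 : ℝ) < p := by exact_mod_cast hp.out.one_lt
  set d := w (Fin.last m) with hd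
  have hne : ∀ (i : Fin m) s, (⟨i.castSucc, s⟩ : VIdx m w) ≠ vsp m w := by
    intro i s h
    exact Fin.castSucc_ne_last i (congrArg Sigma.fst h)
  have hz : ∀ k : VIdx m w, ∃ z : ℤ_[p], PadicInt.toZMod z = c k ∧
      (k ≠ vsp m w → (z : ℚ_[p]) = coeff k.2.1 (Φ k.1)) := by
    intro k
    by_cases hk : k = vsp m w
    · obtain ⟨z, hz⟩ := ZMod.ringHom_surjective (PadicInt.toZMod (p := p)) (c k)
      exact ⟨z, hz, fun h => absurd hk h⟩
    · obtain ⟨z, hz1, hz2⟩ := hc k hk
      exact ⟨z, hz2, fun _ => hz1⟩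
  choose a ha1 ha2 using hz
  have hcoe : ∀ z : ℤ_[p], ‖PadicInt.Coe.ringHom (p := p) z‖ = ‖z‖ := fun z => rfl
  -- the coefficients of the last component
  set al : ℚ_[p] := vz w Φ (Fin.last m) with hal
  have hal1 : ‖al‖ = (p : ℝ) := hΦ.one
  have hal0 : al ≠ 0 := by
    intro h
    rw [h, norm_zero] at hal1
    linarith
  have hdn : ‖((d : ℕ) : ℚ_[p])‖ = 1 := by
    rw [Padic.norm_natCast_eq_one_iff]
    refine (Nat.Prime.coprime_iff_not_dvd hp.out).2 fun h => ?_
    have := Nat.le_of_dvd (by omega) h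
    omega
  have hdn0 : ((d : ℕ) : ℚ_[p]) ≠ 0 := by
    intro h
    rw [h, norm_zero] at hdn
    exact zero_ne_one hdn
  have hda : ((d : ℕ) : ℚ_[p]) * al ≠ 0 := mul_ne_zero hdn0 hal0
  set g : Fin m → ℚ_[p] := fun k => coeff (Finsupp.single k.castSucc 1 +
    Finsupp.single (Fin.last m) (w (Fin.last m) - 1)) (Φ (Fin.last m)) with hg
  have hg1 : ∀ k, ‖g k‖ ≤ 1 := by
    intro k
    refine hΦ.int _ _ fun h => ?_
    have h1 := DFunLike.congr_fun h.2 k.castSucc
    rw [Finsupp.add_apply, Finsupp.single_eq_same, Finsupp.single_eq_of_ne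
      (Fin.castSucc_ne_last k), Finsupp.single_eq_of_ne (Fin.castSucc_ne_last k)] at h1
    omega
  have hy : ∀ k, ‖g k / (((d : ℕ) : ℚ_[p]) * al)‖ < 1 := by
    intro k
    rw [norm_div, norm_mul, hdn, hal1, one_mul]
    exact lt_of_le_of_lt (div_le_div_of_nonneg_right (hg1 k) (by linarith))
      (by rw [div_lt_one (by linarith)]; exact hp1)
  set y : Fin m → ℤ_[p] := fun k => ⟨g k / (((d : ℕ) : ℚ_[p]) * al), (hy k).le⟩ with hydef
  have hy0 : ∀ k, PadicInt.toZMod (y k) = 0 := by
    intro k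
    have h1 : y k ∈ RingHom.ker (PadicInt.toZMod (p := p)) := by
      rw [PadicInt.ker_toZMod, IsLocalRing.mem_maximalIdeal, PadicInt.mem_nonunits]
      exact hy k
    exact h1
  -- the matrix
  set Bz : Matrix (Fin m) (Fin m) ℤ_[p] := Matrix.of fun i k =>
    a (iAv hw i k) - (w i.castSucc : ℤ_[p]) * a (icv w i) * y k with hBz
  have hred : PadicInt.toZMod (TV (wl w) (kp (wl w)) Bz (zv a)) = RV hw c := by
    rw [map_TV, RV]
    congr 1
    · ext i k
      rw [Matrix.map_apply, hBz, Matrix.of_apply, map_sub, map_mul, hy0, mul_zero, sub_zero,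
        ha1]
      rfl
    · funext i
      rw [zv, zv, map_mul, map_natCast, ha1]
  have hTz : TV (wl w) (kp (wl w)) Bz (zv a) ≠ 0 := by
    intro h
    rw [h, map_zero] at hred
    exact hT hred.symm
  set z : Fin m → ℚ_[p] := fun i => ((w (Fin.last m) - w i.castSucc : ℕ) : ℚ_[p]) *
    vz w Φ i.castSucc with hzdef
  have hzz : (fun i => PadicInt.Coe.ringHom (p := p) (zv a i)) = z := by
    funext i
    rw [zv, map_mul, map_natCast, hzdef]
    congr 1
    exact ha2 (icv w i) (hne i _)
  set B : Matrix (Fin m) (Fin m) ℚ_[p] := Bz.map (PadicInt.Coe.ringHom (p := p)) with hB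
  have hBe : ∀ i k, B i k = coeff (Finsupp.single k.castSucc 1 +
      Finsupp.single (Fin.last m) (w i.castSucc - 1)) (Φ i.castSucc) -
      (w i.castSucc : ℚ_[p]) * vz w Φ i.castSucc * (g k / (((d : ℕ) : ℚ_[p]) * al)) := by
    intro i k
    rw [hB, Matrix.map_apply, hBz, Matrix.of_apply, map_sub, map_mul, map_mul, map_natCast]
    congr 1
    · exact ha2 (iAv hw i k) (hne i _)
    · congr 1
      congr 1
      exact ha2 (icv w i) (hne i _)
  have hTV : TV (wl w) (kp (wl w)) B z ≠ 0 := by
    rw [hB, ← hzz, ← map_TV]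
    intro h
    have h1 := hcoe (TV (wl w) (kp (wl w)) Bz (zv a))
    rw [h, norm_zero] at h1
    exact hTz (norm_eq_zero.1 h1.symm)
  obtain ⟨L, U, b, hLU, hU, hL1, hL2, hU2, hb, hspan⟩ := lu_of (wl w) (kp (wl w)) hTV
  have hbU : ∀ i j, bigU U g (((d : ℕ) : ℚ_[p]) * al) i j ≠ 0 → w j ≤ w i := by
    intro i j
    refine Fin.lastCases ?_ (fun j => ?_) j
    · refine Fin.lastCases ?_ (fun i => ?_) i
      · intro _
        exact le_rfl
      · intro h
        rw [bigU_cl] at h
        exact absurd rfl h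
    · refine Fin.lastCases ?_ (fun i => ?_) i
      · intro _
        exact (hw' j).le
      · intro h
        rw [bigU_cc] at h
        exact hU2 i j h
  refine ⟨hΦ.deg, bigL L (fun i => (w i.castSucc : ℚ_[p]) * vz w Φ i.castSucc /
    (((d : ℕ) : ℚ_[p]) * al)), bigU U g (((d : ℕ) : ℚ_[p]) * al), bigv b,
    ?_, ?_, ?_, ?_, ?_, ?_, ?_⟩
  rotate_left 1
  · rw [det_vD _ hbU]
    exact bigU_det U g _ hU hda
  rotate_right 1
  · ext i j
    rw [Matrix.mul_apply, Fin.sum_univ_castSucc]
    refine Fin.lastCases ?_ (fun j => ?_) j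
    · rw [bigU_ll, vJ, Matrix.of_apply, if_pos rfl]
      refine Fin.lastCases ?_ (fun i => ?_) i
      · rw [bigL_ll, one_mul, Finset.sum_eq_zero, zero_add]
        intro k _
        rw [bigU_cl, mul_zero]
      · rw [bigL_cl, div_mul_cancel₀ _ hda, Finset.sum_eq_zero, zero_add]
        intro k _
        rw [bigU_cl, mul_zero]
    · rw [bigU_lc, vJ, Matrix.of_apply, if_neg (Fin.castSucc_ne_last j)]
      refine Fin.lastCases ?_ (fun i => ?_) i
      · rw [bigL_ll, one_mul, Finset.sum_eq_zero, zero_add]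
        intro k _
        rw [bigL_lc, zero_mul]
      · rw [bigL_cl]
        have h1 : ∑ k : Fin m, bigL L (fun i => (w i.castSucc : ℚ_[p]) * vz w Φ i.castSucc /
            (((d : ℕ) : ℚ_[p]) * al)) i.castSucc k.castSucc *
            bigU U g (((d : ℕ) : ℚ_[p]) * al) k.castSucc j.castSucc = B i j := by
          rw [hLU, Matrix.mul_apply]
          exact Finset.sum_congr rfl fun k _ => by rw [bigL_cc, bigU_cc]
        rw [h1, hBe]
        field_simp
        ring
  · intro i
    refine Fin.lastCases ?_ (fun i => ?_) i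
    · exact bigL_ll _ _
    · rw [bigL_cc]
      exact hL1 i
  · intro i j
    refine Fin.lastCases ?_ (fun j => ?_) j
    · refine Fin.lastCases ?_ (fun i => ?_) i
      · intro h
        exact absurd rfl h
      · intro _ _
        exact hw' i
    · refine Fin.lastCases ?_ (fun i => ?_) i
      · intro _ h
        rw [bigL_lc] at h
        exact absurd rfl h
      · intro h1 h2
        rw [bigL_cc] at h2
        exact hL2 i j (fun h => h1 (by rw [h])) h2
  · exact hbU
  · funext i
    rw [Matrix.mulVec, dotProduct, Fin.sum_univ_castSucc, bigv_l, mul_zero, add_zero]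
    refine Fin.lastCases ?_ (fun i => ?_) i
    · rw [Nat.sub_self, Nat.cast_zero, zero_mul]
      refine Finset.sum_eq_zero fun k _ => ?_
      rw [bigL_lc, zero_mul]
    · have h1 := congrFun hb i
      rw [Matrix.mulVec, dotProduct] at h1
      simp only [bigL_cc, bigv_c]
      exact h1
  · rw [Submodule.eq_top_iff']
    intro v
    have hv : v = bigl (fun i => v i.castSucc) +
        v (Fin.last m) • (Pi.single (Fin.last m) 1 : Fin (m + 1) → ℚ_[p]) := by
      funext i
      rw [Pi.add_apply, Pi.smul_apply]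
      refine Fin.lastCases ?_ (fun i => ?_) i
      · rw [bigl_apply, bigv_l, Pi.single_eq_same, zero_add, smul_eq_mul, mul_one]
      · rw [bigl_apply, bigv_c, Pi.single_eq_of_ne (Fin.castSucc_ne_last i), smul_zero,
          add_zero]
    rw [hv]
    refine Submodule.add_mem _ ?_ (Submodule.smul_mem _ _ (Submodule.subset_span (Or.inl rfl)))
    have h1 := Submodule.mem_map_of_mem (f := bigl) (hspan fun i => v i.castSucc)
    rw [Submodule.map_span] at h1
    refine Submodule.span_mono ?_ h1
    rintro _ ⟨_, ⟨k, j, rfl⟩, rfl⟩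
    refine Or.inr ⟨k, wl w j, ?_⟩
    rw [bigl_apply, ← diag_pow_bigv U g (((d : ℕ) : ℚ_[p]) * al) hw']
    congr 1
    funext i
    refine Fin.lastCases ?_ (fun i => ?_) i
    · rw [bigv_l, bigv_l, ite_self]
    · rw [bigv_c, bigv_c]
      rfl

end

end Pool.Agent.Helper87.DV
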