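import Pool.Agent.Helper87.DV.Main
import Pool.Agent.Helper26.DV.Term

/-!
# One hundred percent of the maps with an arbitrary degree vector whose maximum is attained once
-/

set_option autoImplicit false

namespace Pool.Agent.Helper87.DV

open MvPolynomial
open Pool.Agent.Helper26.DV
open Pool.Agent.Helper86.MQ (pm)
open Pool.Agent.Helper87.MQ (toC)

variable {m : ℕ} {w : Fin (m + 1) → ℕ}

/-- **Main theorem.** -/
theorem dv_main (hw : ∀ i : Fin m, 1 ≤ w i.castSucc)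
    (hw' : ∀ i : Fin m, w i.castSucc < w (Fin.last m)) (hd : 2 ≤ w (Fin.last m))
    (A : Finset ℂ) (ε : ℝ) (hε : 0 < ε) :
    ∃ K : ℕ, ∀ B : ℕ, K ≤ B → (vbox m w B).Finite ∧
      (1 - ε) * ((vbox m w B).ncard : ℝ) ≤
        (({Φ ∈ vbox m w B |
          ∀ α : Fin (m + 1) → ℂ, (∀ i, α i ∈ Subfield.closure (A : Set ℂ)) →
            ∀ F : MvPolynomial (Fin (m + 1)) ℂ, F ≠ 0 →
              {n | eval ((pm (toC Φ))^[n] α) F = 0}.Finite}).ncard : ℝ) :=
  dv_main_of hw hw' hd (fun q _ Φ hΦ F hF =>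
    Pool.Agent.Helper26.DV.term (fun i => ⟨hw i, hw' i⟩) (by omega) hΦ hF) A ε hε

end Pool.Agent.Helper87.DV
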