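import Mathlib

/-!
# Block elimination with polynomial formulas
-/

set_option autoImplicit false

namespace Pool.Agent.Helper87.DV

open Matrix

section ring

variable {ι : Type*} [Fintype ι] [DecidableEq ι] {S S' : Type*} [CommRing S] [CommRing S']
  (w : ι → ℕ)

/-- the block of the levels larger than `E` -/
def upM (E : ℕ) (J : Matrix ι ι S) : Matrix ι ι S :=
  Matrix.of fun i j => if E < w i ∧ E < w j then J i j else if i = j then 1 else 0

/-- the product of the minors of the other levels -/
def qf (J : Matrix ι ι S) (i : ι) : S := ∏ k ∈ Finset.univ.erase i, (upM w (w k) J).det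

/-- the product of the minors -/
def Dt (J : Matrix ι ι S) : S := ∏ k, (upM w (w k) J).det

/-- the off-diagonal part of the elimination matrix -/
def Mo (J : Matrix ι ι S) (i j : ι) : S :=
  -(qf w J i * ∑ k, (if w i < w k then J i k else 0) * (upM w (w i) J).adjugate k j)

/-- the elimination matrix -/
def Mm (J : Matrix ι ι S) : Matrix ι ι S :=
  Matrix.of fun i j => if i = j then Dt w J else if w i < w j then Mo w J i j else 0

/-- the diagonal blocks -/
def dg (U : Matrix ι ι S) : Matrix ι ι S := Matrix.of fun i j => if w i = w j then U i j else 0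

/-- a level of a vector -/
def lv (E : ℕ) (b : ι → S) : ι → S := fun i => if w i = E then b i else 0

/-- the Krylov matrix -/
def Kry (κ : ι → ℕ) (J : Matrix ι ι S) (z : ι → S) : Matrix ι ι S :=
  Matrix.of fun i j => ((dg w (Mm w J * J)) ^ κ j).mulVec (lv w (w j) ((Mm w J).mulVec z)) i

/-- the generic condition -/
def TV (κ : ι → ℕ) (J : Matrix ι ι S) (z : ι → S) : S :=
  J.det * Dt w J * (Kry w κ J z).det

theorem Mm_mul (J : Matrix ι ι S) {i k : ι} (hik : w i < w k) : (Mm w J * J) i k = 0 := by
  rw [Matrix.mul_apply]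
  have h1 : ∀ j, Mm w J i j * J j k =
      (if i = j then Dt w J * J j k else 0) + Mo w J i j * upM w (w i) J j k := by
    intro j
    rw [Mm, Matrix.of_apply]
    by_cases hij : i = j
    · subst hij
      have h2 : upM w (w i) J i k = 0 := by
        rw [upM, Matrix.of_apply, if_neg fun h => lt_irrefl _ h.1, if_neg]
        rintro rfl
        exact lt_irrefl _ hik
      rw [if_pos rfl, if_pos rfl, h2, mul_zero, add_zero]
    · rw [if_neg hij, if_neg hij, zero_add]
      by_cases hw : w i < w j
      · rw [if_pos hw, upM, Matrix.of_apply, if_pos ⟨hw, hik⟩]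
      · have h2 : upM w (w i) J j k = 0 := by
          rw [upM, Matrix.of_apply, if_neg fun h => hw h.1, if_neg]
          rintro rfl
          exact hw hik
        rw [if_neg hw, h2, zero_mul, mul_zero]
  rw [Finset.sum_congr rfl fun j _ => h1 j, Finset.sum_add_distrib, Finset.sum_ite_eq,
    if_pos (Finset.mem_univ _)]
  have h3 : ∑ j, Mo w J i j * upM w (w i) J j k =
      -(qf w J i * ∑ l, (if w i < w l then J i l else 0) *
        ((upM w (w i) J).adjugate * upM w (w i) J) l k) := by
    simp only [Mo, Matrix.mul_apply, Finset.mul_sum, Finset.sum_mul, neg_mul,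
      Finset.sum_neg_distrib]
    rw [Finset.sum_comm]
    refine congrArg _ (Finset.sum_congr rfl fun l _ => Finset.sum_congr rfl fun j _ => ?_)
    ring
  rw [h3, Matrix.adjugate_mul]
  have h4 : ∑ l, (if w i < w l then J i l else 0) *
      ((upM w (w i) J).det • (1 : Matrix ι ι S)) l k = (upM w (w i) J).det * J i k := by
    rw [Finset.sum_eq_single k]
    · rw [if_pos hik, Matrix.smul_apply, Matrix.one_apply_eq, smul_eq_mul, mul_one, mul_comm]
    · intro l _ hl
      rw [Matrix.smul_apply, Matrix.one_apply_ne hl, smul_zero, mul_zero]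
    · intro h
      exact absurd (Finset.mem_univ _) h
  rw [h4]
  have h5 : qf w J i * (upM w (w i) J).det = Dt w J :=
    Finset.prod_erase_mul _ _ (Finset.mem_univ i)
  rw [← mul_assoc, h5]
  ring

section map

variable (φ : S →+* S')

theorem map_upM (E : ℕ) (J : Matrix ι ι S) :
    (upM w E J).map φ = upM w E (J.map φ) := by
  ext i j
  simp only [upM, Matrix.map_apply, Matrix.of_apply]
  split_ifs <;> simp

theorem map_Dt (J : Matrix ι ι S) : φ (Dt w J) = Dt w (J.map φ) := by
  rw [Dt, Dt, map_prod]
  refine Finset.prod_congr rfl fun k _ => ?_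
  rw [RingHom.map_det, RingHom.mapMatrix_apply, map_upM]

theorem map_qf (J : Matrix ι ι S) (i : ι) : φ (qf w J i) = qf w (J.map φ) i := by
  rw [qf, qf, map_prod]
  refine Finset.prod_congr rfl fun k _ => ?_
  rw [RingHom.map_det, RingHom.mapMatrix_apply, map_upM]

theorem map_Mo (J : Matrix ι ι S) (i j : ι) : φ (Mo w J i j) = Mo w (J.map φ) i j := by
  rw [Mo, Mo, map_neg, map_mul, map_qf, map_sum]
  congr 2
  refine Finset.sum_congr rfl fun k _ => ?_
  rw [map_mul]
  congr 1
  · split_ifs <;> simp
  · have h := congrFun (congrFun (RingHom.map_adjugate φ (upM w (w i) J)) k) j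
    rw [RingHom.mapMatrix_apply, RingHom.mapMatrix_apply, map_upM, Matrix.map_apply] at h
    exact h

theorem map_Mm (J : Matrix ι ι S) : (Mm w J).map φ = Mm w (J.map φ) := by
  ext i j
  simp only [Mm, Matrix.map_apply, Matrix.of_apply]
  split_ifs
  · exact map_Dt w φ J
  · exact map_Mo w φ J i j
  · exact map_zero φ

theorem map_dg (U : Matrix ι ι S) : (dg w U).map φ = dg w (U.map φ) := by
  ext i j
  simp only [dg, Matrix.map_apply, Matrix.of_apply]
  split_ifs <;> simp

theorem map_Kry (κ : ι → ℕ) (J : Matrix ι ι S) (z : ι → S) :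
    (Kry w κ J z).map φ = Kry w κ (J.map φ) (fun i => φ (z i)) := by
  ext i j
  simp only [Kry, Matrix.map_apply, Matrix.of_apply]
  rw [RingHom.map_mulVec]
  have h1 : ((dg w (Mm w J * J)) ^ κ j).map φ = (dg w (Mm w (J.map φ) * J.map φ)) ^ κ j := by
    have h2 := map_pow φ.mapMatrix (dg w (Mm w J * J)) (κ j)
    rw [RingHom.mapMatrix_apply, RingHom.mapMatrix_apply, map_dg, Matrix.map_mul, map_Mm] at h2
    exact h2
  rw [h1]
  congr 1
  funext l
  simp only [Function.comp_apply, lv]
  split_ifs
  · rw [RingHom.map_mulVec, map_Mm]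
    rfl
  · exact map_zero φ

theorem map_TV (κ : ι → ℕ) (J : Matrix ι ι S) (z : ι → S) :
    φ (TV w κ J z) = TV w κ (J.map φ) (fun i => φ (z i)) := by
  rw [TV, TV, map_mul, map_mul, map_Dt, RingHom.map_det, RingHom.map_det,
    RingHom.mapMatrix_apply, RingHom.mapMatrix_apply, map_Kry]

end map

end ring

section field

variable {m : ℕ} {K : Type*} [Field K] (w : Fin m → ℕ)

/-- an injective order -/
def f1 (i : Fin m) : ℕ := w i * (m + 1) + i

/-- another injective order -/
def f2 (i : Fin m) : ℕ := w i * (m + 1) + (m - i)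

theorem f1_lt {i j : Fin m} (h : w i < w j) : f1 w i < f1 w j := by
  unfold f1
  have := i.2
  nlinarith

theorem f2_lt {i j : Fin m} (h : w i < w j) : f2 w i < f2 w j := by
  unfold f2
  have := Nat.sub_le m i
  nlinarith

theorem of_f12 {i j : Fin m} (h1 : ¬ f1 w j < f1 w i) (h2 : ¬ f2 w j < f2 w i) (hij : i ≠ j) :
    w i < w j := by
  rcases lt_trichotomy (w i) (w j) with h | h | h
  · exact h
  · exfalso
    unfold f1 at h1
    unfold f2 at h2
    rw [h] at h1 h2
    have := i.2
    have := j.2
    exact hij (Fin.ext (by omega))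
  · exact absurd (f1_lt w h) h1

theorem Mm_tri1 (J : Matrix (Fin m) (Fin m) K) : (Mm w J).BlockTriangular (f1 w) := by
  intro i j hij
  rw [Mm, Matrix.of_apply, if_neg, if_neg]
  · intro h
    exact lt_asymm hij (f1_lt w h)
  · rintro rfl
    exact lt_irrefl _ hij

theorem Mm_tri2 (J : Matrix (Fin m) (Fin m) K) : (Mm w J).BlockTriangular (f2 w) := by
  intro i j hij
  rw [Mm, Matrix.of_apply, if_neg, if_neg]
  · intro h
    exact lt_asymm hij (f2_lt w h)
  · rintro rfl
    exact lt_irrefl _ hij

theorem Mm_det {J : Matrix (Fin m) (Fin m) K} (hD : Dt w J ≠ 0) : (Mm w J).det ≠ 0 := by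
  intro h
  obtain ⟨v, hv, hv0⟩ := Matrix.exists_mulVec_eq_zero_iff.2 h
  apply hv
  have key : ∀ n : ℕ, ∀ i, (Finset.univ.filter fun j => w i < w j).card ≤ n → v i = 0 := by
    intro n
    induction n with
    | zero =>
      intro i hi
      have h1 := congrFun hv0 i
      rw [Matrix.mulVec, dotProduct, Finset.sum_eq_single i] at h1
      · rw [Mm, Matrix.of_apply, if_pos rfl] at h1
        exact (mul_eq_zero.1 h1).resolve_left hD
      · intro j _ hj
        rw [Mm, Matrix.of_apply, if_neg (Ne.symm hj), if_neg, zero_mul]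
        intro h2
        have h3 : j ∈ Finset.univ.filter fun j => w i < w j :=
          Finset.mem_filter.2 ⟨Finset.mem_univ _, h2⟩
        have := Finset.card_pos.2 ⟨j, h3⟩
        omega
      · intro h2
        exact absurd (Finset.mem_univ _) h2
    | succ n ih =>
      intro i hi
      have h1 := congrFun hv0 i
      rw [Matrix.mulVec, dotProduct, Finset.sum_eq_single i] at h1
      · rw [Mm, Matrix.of_apply, if_pos rfl] at h1
        exact (mul_eq_zero.1 h1).resolve_left hD
      · intro j _ hj
        rw [Mm, Matrix.of_apply, if_neg (Ne.symm hj)]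
        by_cases h2 : w i < w j
        · have h3 : v j = 0 := by
            refine ih j ?_
            have h4 : (Finset.univ.filter fun k => w j < w k) ⊂
                Finset.univ.filter fun k => w i < w k := by
              refine Finset.ssubset_iff_subset_ne.2 ⟨fun k hk => ?_, fun h5 => ?_⟩
              · rw [Finset.mem_filter] at hk ⊢
                exact ⟨hk.1, h2.trans hk.2⟩
              · have h6 : j ∈ Finset.univ.filter fun k => w i < w k :=
                  Finset.mem_filter.2 ⟨Finset.mem_univ _, h2⟩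
                rw [← h5, Finset.mem_filter] at h6
                exact lt_irrefl _ h6.2
            have := Finset.card_lt_card h4
            omega
          rw [h3, mul_zero]
        · rw [if_neg h2, zero_mul]
      · intro h2
        exact absurd (Finset.mem_univ _) h2
  funext i
  exact key _ i le_rfl

/-- **Block elimination.** -/
theorem lu_of (κ : Fin m → ℕ) {J : Matrix (Fin m) (Fin m) K} {z : Fin m → K}
    (hT : TV w κ J z ≠ 0) :
    ∃ (L U : Matrix (Fin m) (Fin m) K) (b : Fin m → K),
      J = L * U ∧ U.det ≠ 0 ∧ (∀ i, L i i = 1) ∧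
      (∀ i j, i ≠ j → L i j ≠ 0 → w i < w j) ∧
      (∀ i j, U i j ≠ 0 → w j ≤ w i) ∧ L.mulVec b = z ∧
      ∀ v : Fin m → K, v ∈ Submodule.span K
        {v | ∃ k : ℕ, ∃ j : Fin m, v = ((dg w U) ^ k).mulVec (lv w (w j) b)} := by
  rw [TV] at hT
  have hJ : J.det ≠ 0 := left_ne_zero_of_mul (left_ne_zero_of_mul hT)
  have hD : Dt w J ≠ 0 := right_ne_zero_of_mul (left_ne_zero_of_mul hT)
  have hK : (Kry w κ J z).det ≠ 0 := right_ne_zero_of_mul hT
  have hM := Mm_det w hD
  have hMu : IsUnit (Mm w J).det := isUnit_iff_ne_zero.2 hM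
  haveI : Invertible (Mm w J) := Matrix.invertibleOfIsUnitDet _ hMu
  have ht1 := Matrix.blockTriangular_inv_of_blockTriangular (Mm_tri1 w J)
  have ht2 := Matrix.blockTriangular_inv_of_blockTriangular (Mm_tri2 w J)
  set N := (Mm w J)⁻¹ with hN
  have hNM : N * Mm w J = 1 := Matrix.nonsing_inv_mul _ hMu
  have hMN : Mm w J * N = 1 := Matrix.mul_nonsing_inv _ hMu
  have hN0 : ∀ i j, i ≠ j → N i j ≠ 0 → w i < w j := by
    intro i j hij h
    refine of_f12 w (fun h1 => h (ht1 h1)) (fun h1 => h (ht2 h1)) hij
  have hNd : ∀ i, Dt w J * N i i = 1 := by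
    intro i
    have h1 := congrFun (congrFun hMN i) i
    rw [Matrix.mul_apply, Matrix.one_apply_eq, Finset.sum_eq_single i] at h1
    · rw [Mm, Matrix.of_apply, if_pos rfl] at h1
      exact h1
    · intro j _ hj
      by_cases h2 : w i < w j
      · have h3 : N j i = 0 := by
          by_contra h3
          exact lt_asymm h2 (hN0 j i hj h3)
        rw [h3, mul_zero]
      · rw [Mm, Matrix.of_apply, if_neg (Ne.symm hj), if_neg h2, zero_mul]
    · intro h2
      exact absurd (Finset.mem_univ _) h2
  refine ⟨Dt w J • N, (Dt w J)⁻¹ • (Mm w J * J), (Dt w J)⁻¹ • (Mm w J).mulVec z,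
    ?_, ?_, ?_, ?_, ?_, ?_, ?_⟩
  · rw [Matrix.smul_mul, Matrix.mul_smul, smul_smul, mul_inv_cancel₀ hD, one_smul,
      ← Matrix.mul_assoc, hNM, Matrix.one_mul]
  · rw [Matrix.det_smul, Matrix.det_mul]
    exact mul_ne_zero (pow_ne_zero _ (inv_ne_zero hD)) (mul_ne_zero hM hJ)
  · intro i
    rw [Matrix.smul_apply, smul_eq_mul]
    exact hNd i
  · intro i j hij h
    rw [Matrix.smul_apply, smul_eq_mul] at h
    exact hN0 i j hij (right_ne_zero_of_mul h)
  · intro i j h
    by_contra hw
    push Not at hw
    rw [Matrix.smul_apply, Mm_mul w J hw, smul_zero] at h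
    exact h rfl
  · rw [Matrix.smul_mulVec, Matrix.mulVec_smul, smul_smul, mul_inv_cancel₀ hD, one_smul,
      Matrix.mulVec_mulVec, hNM, Matrix.one_mulVec]
  · intro v
    have hdg : dg w (Mm w J * J) = Dt w J • dg w ((Dt w J)⁻¹ • (Mm w J * J)) := by
      ext i j
      simp only [dg, Matrix.smul_apply, Matrix.of_apply, smul_eq_mul]
      split_ifs
      · rw [mul_inv_cancel_left₀ hD]
      · rw [mul_zero]
    have hlv : ∀ E, lv w E ((Mm w J).mulVec z) =
        Dt w J • lv w E ((Dt w J)⁻¹ • (Mm w J).mulVec z) := by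
      intro E
      funext i
      simp only [lv, Pi.smul_apply, smul_eq_mul]
      split_ifs
      · rw [mul_inv_cancel_left₀ hD]
      · rw [mul_zero]
    have hcol : v ∈ Submodule.span K (Set.range (Kry w κ J z).col) := by
      have h1 : LinearIndependent K (Kry w κ J z).col :=
        Matrix.linearIndependent_cols_of_det_ne_zero hK
      rw [h1.span_eq_top_of_card_eq_finrank' (by simp)]
      exact Submodule.mem_top
    refine (Submodule.span_le.2 ?_) hcol
    rintro _ ⟨j, rfl⟩
    have h2 : (Kry w κ J z).col j = (Dt w J ^ κ j * Dt w J) •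
        ((dg w ((Dt w J)⁻¹ • (Mm w J * J))) ^ κ j).mulVec
          (lv w (w j) ((Dt w J)⁻¹ • (Mm w J).mulVec z)) := by
      have h3 : (Kry w κ J z).col j =
        ((dg w (Mm w J * J)) ^ κ j).mulVec (lv w (w j) ((Mm w J).mulVec z)) := rfl
      rw [h3, hdg, hlv, smul_pow, Matrix.smul_mulVec, Matrix.mulVec_smul, smul_smul]
    rw [h2]
    exact Submodule.smul_mem _ _ (Submodule.subset_span ⟨κ j, j, rfl⟩)

end field

end Pool.Agent.Helper87.DV
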