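import Pool.Agent.Helper26.DV.Defs
import Pool.Agent.Helper26.GG.Gen
import Pool.Agent.Helper87.DV.LU

/-!
# The generic condition for maps with an arbitrary degree vector
-/

set_option autoImplicit false

namespace Pool.Agent.Helper87.DV

open MvPolynomial Pool.Agent.Helper26.DV

section diag

variable {m : ℕ} {S : Type*} [CommRing S] [IsDomain S] (w : Fin m → ℕ)

/-- the position of an index in its level -/
def kp (j : Fin m) : ℕ := (Finset.univ.filter fun i => w i = w j ∧ i < j).card

theorem kp_lt (j : Fin m) : kp w j < (Finset.univ.filter fun i => w i = w j).card := by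
  refine Finset.card_lt_card (Finset.ssubset_iff_subset_ne.2 ⟨fun i hi => ?_, fun h => ?_⟩)
  · rw [Finset.mem_filter] at hi ⊢
    exact ⟨hi.1, hi.2.1⟩
  · have h1 : j ∈ Finset.univ.filter fun i => w i = w j :=
      Finset.mem_filter.2 ⟨Finset.mem_univ _, rfl⟩
    rw [← h, Finset.mem_filter] at h1
    exact lt_irrefl _ h1.2.2

theorem kp_lt_kp {i j : Fin m} (h : w i = w j) (hij : i < j) : kp w i < kp w j := by
  refine Finset.card_lt_card (Finset.ssubset_iff_subset_ne.2 ⟨fun k hk => ?_, fun h1 => ?_⟩)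
  · rw [Finset.mem_filter] at hk ⊢
    exact ⟨hk.1, hk.2.1.trans h, hk.2.2.trans hij⟩
  · have h2 : i ∈ Finset.univ.filter fun k => w k = w j ∧ k < j :=
      Finset.mem_filter.2 ⟨Finset.mem_univ _, h, hij⟩
    rw [← h1, Finset.mem_filter] at h2
    exact lt_irrefl _ h2.2.2

theorem kp_inj {i j : Fin m} (h : w i = w j) (hk : kp w i = kp w j) : i = j := by
  rcases lt_trichotomy i j with h1 | h1 | h1
  · exact absurd hk (kp_lt_kp w h h1).ne
  · exact h1
  · exact absurd hk (kp_lt_kp w h.symm h1).ne'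

theorem upM_diag (E : ℕ) (l : Fin m → S) :
    upM w E (Matrix.diagonal l) = Matrix.diagonal fun i => if E < w i then l i else 1 := by
  ext i j
  rw [upM, Matrix.of_apply]
  by_cases hij : i = j
  · subst hij
    rw [Matrix.diagonal_apply_eq, Matrix.diagonal_apply_eq, if_pos rfl]
    by_cases h : E < w i
    · rw [if_pos ⟨h, h⟩, if_pos h]
    · rw [if_neg fun h1 => h h1.1, if_neg h]
  · rw [Matrix.diagonal_apply_ne _ hij, Matrix.diagonal_apply_ne _ hij, if_neg hij, ite_self]

theorem Dt_diag (l : Fin m → S) (hl : ∀ i, l i ≠ 0) : Dt w (Matrix.diagonal l) ≠ 0 := by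
  rw [Dt]
  refine Finset.prod_ne_zero_iff.2 fun k _ => ?_
  rw [upM_diag, Matrix.det_diagonal]
  refine Finset.prod_ne_zero_iff.2 fun i _ => ?_
  split_ifs
  · exact hl i
  · exact one_ne_zero

theorem Mm_diag (l : Fin m → S) :
    Mm w (Matrix.diagonal l) = Matrix.diagonal fun _ => Dt w (Matrix.diagonal l) := by
  ext i j
  rw [Mm, Matrix.of_apply]
  by_cases hij : i = j
  · subst hij
    rw [if_pos rfl, Matrix.diagonal_apply_eq]
  · rw [if_neg hij, Matrix.diagonal_apply_ne _ hij]
    by_cases h : w i < w j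
    · rw [if_pos h, Mo, Finset.sum_eq_zero, mul_zero, neg_zero]
      intro k _
      by_cases hk : w i < w k
      · rw [if_pos hk, Matrix.diagonal_apply_ne, zero_mul]
        rintro rfl
        exact lt_irrefl _ hk
      · rw [if_neg hk, zero_mul]
    · rw [if_neg h]

theorem dg_diag (l : Fin m → S) : dg w (Matrix.diagonal l) = Matrix.diagonal l := by
  ext i j
  rw [dg, Matrix.of_apply]
  by_cases hij : i = j
  · rw [if_pos (by rw [hij])]
  · rw [Matrix.diagonal_apply_ne _ hij, ite_self]

theorem TV_diag (l : Fin m → S) (hinj : Function.Injective l) (hl : ∀ i, l i ≠ 0)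
    (z : Fin m → S) (hz : ∀ i, z i ≠ 0) : TV w (kp w) (Matrix.diagonal l) z ≠ 0 := by
  classical
  have hD := Dt_diag w l hl
  set D := Dt w (Matrix.diagonal l) with hDd
  rw [TV, ← hDd]
  refine mul_ne_zero (mul_ne_zero ?_ hD) ?_
  · rw [Matrix.det_diagonal]
    exact Finset.prod_ne_zero_iff.2 fun i _ => hl i
  · have hK : ∀ i j, Kry w (kp w) (Matrix.diagonal l) z i j =
        (D * l i) ^ kp w j * (if w i = w j then D * z i else 0) := by
      intro i j
      rw [Kry, Matrix.of_apply, Mm_diag, Matrix.diagonal_mul_diagonal, dg_diag,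
        Matrix.diagonal_pow, Matrix.mulVec_diagonal, lv, Matrix.mulVec_diagonal]
      rfl
    intro hdet
    obtain ⟨v, hv, hv0⟩ := Matrix.exists_mulVec_eq_zero_iff.2 hdet
    apply hv
    funext j₀
    -- the polynomial of the level
    set s : Finset (Fin m) := Finset.univ.filter fun j => w j = w j₀ with hs
    set P : Polynomial S := ∑ j ∈ s, Polynomial.C (v j) * Polynomial.X ^ kp w j with hP
    have hroot : ∀ i ∈ s, P.eval (D * l i) = 0 := by
      intro i hi
      rw [hs, Finset.mem_filter] at hi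
      have h1 := congrFun hv0 i
      rw [Matrix.mulVec, dotProduct] at h1
      have h2 : ∑ j, Kry w (kp w) (Matrix.diagonal l) z i j * v j =
          (D * z i) * P.eval (D * l i) := by
        rw [hP, Polynomial.eval_finset_sum, Finset.mul_sum, hs, Finset.sum_filter]
        refine Finset.sum_congr rfl fun j _ => ?_
        rw [hK, hi.2]
        by_cases h3 : w j = w j₀
        · rw [if_pos h3.symm, if_pos h3]
          simp only [Polynomial.eval_mul, Polynomial.eval_C, Polynomial.eval_pow,
            Polynomial.eval_X]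
          ring
        · rw [if_neg (Ne.symm h3), if_neg h3, mul_zero, zero_mul]
      rw [h2] at h1
      exact (mul_eq_zero.1 h1).resolve_left (mul_ne_zero hD (hz i))
    have hdeg : P.natDegree < s.card := by
      have hpos : 0 < s.card := Finset.card_pos.2 ⟨j₀, by rw [hs, Finset.mem_filter]; exact ⟨Finset.mem_univ _, rfl⟩⟩
      have h1 : P.natDegree ≤ s.card - 1 := by
        refine Polynomial.natDegree_sum_le_of_forall_le _ _ fun j hj => ?_
        refine (Polynomial.natDegree_C_mul_X_pow_le _ _).trans ?_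
        rw [hs, Finset.mem_filter] at hj
        have h2 := kp_lt w j
        rw [hj.2] at h2
        rw [hs]
        omega
      omega
    have hP0 : P = 0 := by
      refine Polynomial.eq_zero_of_natDegree_lt_card_of_eval_eq_zero' P
        (s.image fun i => D * l i) ?_ ?_
      · intro x hx
        obtain ⟨i, hi, rfl⟩ := Finset.mem_image.1 hx
        exact hroot i hi
      · rw [Finset.card_image_of_injective _ fun i j h => hinj (mul_left_cancel₀ hD h)]
        exact hdeg
    have h1 := congrArg (fun Q => Polynomial.coeff Q (kp w j₀)) hP0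
    simp only [hP, Polynomial.finset_sum_coeff, Polynomial.coeff_C_mul_X_pow,
      Polynomial.coeff_zero] at h1
    rw [Finset.sum_eq_single j₀] at h1
    · rw [if_pos rfl] at h1
      exact h1
    · intro j hj hj'
      rw [hs, Finset.mem_filter] at hj
      rw [if_neg]
      intro h2
      exact hj' (kp_inj w hj.2.symm h2).symm
    · intro h2
      exact absurd (by rw [hs, Finset.mem_filter]; exact ⟨Finset.mem_univ _, rfl⟩) h2

end diag

variable {m : ℕ} {w : Fin (m + 1) → ℕ}

/-- the degrees of the first components -/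
def wl (w : Fin (m + 1) → ℕ) (i : Fin m) : ℕ := w i.castSucc

/-- the index of `x_k x_N ^ (w_i - 1)` in the `i`-th component -/
noncomputable def iAv (hw : ∀ i : Fin m, 1 ≤ w i.castSucc) (i k : Fin m) : VIdx m w :=
  ⟨i.castSucc, ⟨Finsupp.single k.castSucc 1 + Finsupp.single (Fin.last m) (w i.castSucc - 1), by
    rw [map_add, Finsupp.degree_single, Finsupp.degree_single]
    have := hw i
    omega⟩⟩

/-- the index of `x_N ^ w_i` in the `i`-th component -/
noncomputable def icv (w : Fin (m + 1) → ℕ) (i : Fin m) : VIdx m w :=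
  ⟨i.castSucc, ⟨Finsupp.single (Fin.last m) (w i.castSucc), by rw [Finsupp.degree_single]⟩⟩

section

variable {S S' : Type*} [CommRing S] [CommRing S']

/-- the matrix `A` -/
noncomputable def Av (hw : ∀ i : Fin m, 1 ≤ w i.castSucc) (c : VIdx m w → S) :
    Matrix (Fin m) (Fin m) S :=
  Matrix.of fun i k => c (iAv hw i k)

/-- the vector with the entries `(w_N - w_i) c_i` -/
noncomputable def zv (c : VIdx m w → S) (i : Fin m) : S :=
  ((w (Fin.last m) - w i.castSucc : ℕ) : S) * c (icv w i)

/-- the generic condition -/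
noncomputable def RV (hw : ∀ i : Fin m, 1 ≤ w i.castSucc) (c : VIdx m w → S) : S :=
  TV (wl w) (kp (wl w)) (Av hw c) (zv c)

theorem map_RV (φ : S →+* S') (hw : ∀ i : Fin m, 1 ≤ w i.castSucc) (c : VIdx m w → S) :
    φ (RV hw c) = RV hw (fun k => φ (c k)) := by
  rw [RV, RV, map_TV]
  have h : (fun i => φ (zv c i)) = zv (fun k => φ (c k)) := by
    funext i
    rw [zv, zv, map_mul, map_natCast]
  rw [h]
  rfl

end

/-- the entries of a special array -/
noncomputable def ce0 (w : Fin (m + 1) → ℕ) (i : Fin (m + 1)) (s : Fin (m + 1) →₀ ℕ) : ℤ := by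
  classical
  exact if s = Finsupp.single (Fin.last m) (w i) then 1
    else if s = Finsupp.single i 1 + Finsupp.single (Fin.last m) (w i - 1) then
      ((i : ℕ) : ℤ) + 1 else 0

/-- a special array -/
noncomputable def cv0 (w : Fin (m + 1) → ℕ) (k : VIdx m w) : ℤ :=
  ce0 w k.1 (k.2 : Fin (m + 1) →₀ ℕ)

theorem ce0_A (i k : Fin m) :
    ce0 w i.castSucc (Finsupp.single k.castSucc 1 + Finsupp.single (Fin.last m)
      (w i.castSucc - 1)) = if i = k then ((i : ℕ) : ℤ) + 1 else 0 := by
  classical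
  rw [ce0, if_neg]
  · by_cases hik : i = k
    · subst hik
      rw [if_pos rfl, if_pos rfl]
      rfl
    · rw [if_neg, if_neg hik]
      intro h
      have h1 : Finsupp.single k.castSucc 1 = Finsupp.single i.castSucc 1 := add_right_cancel h
      rw [Finsupp.single_left_inj one_ne_zero] at h1
      exact hik (Fin.castSucc_injective m h1).symm
  · intro h
    have h1 := DFunLike.congr_fun h k.castSucc
    rw [Finsupp.add_apply, Finsupp.single_eq_same, Finsupp.single_eq_of_ne
      (Fin.castSucc_ne_last k), Finsupp.single_eq_of_ne (Fin.castSucc_ne_last k)] at h1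
    omega

theorem ce0_c (i : Fin m) :
    ce0 w i.castSucc (Finsupp.single (Fin.last m) (w i.castSucc)) = 1 := by
  classical
  rw [ce0, if_pos rfl]

theorem Av_cv0 (hw : ∀ i : Fin m, 1 ≤ w i.castSucc) :
    Av hw (cv0 w) = Matrix.diagonal fun i : Fin m => ((i : ℕ) : ℤ) + 1 := by
  classical
  ext i k
  have h : Av hw (cv0 w) i k = ce0 w i.castSucc (Finsupp.single k.castSucc 1 +
    Finsupp.single (Fin.last m) (w i.castSucc - 1)) := rfl
  rw [h, ce0_A, Matrix.diagonal_apply]

theorem zv_cv0 (i : Fin m) : zv (cv0 w) i = ((w (Fin.last m) - w i.castSucc : ℕ) : ℤ) := by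
  have h : zv (cv0 w) i = ((w (Fin.last m) - w i.castSucc : ℕ) : ℤ) *
    ce0 w i.castSucc (Finsupp.single (Fin.last m) (w i.castSucc)) := rfl
  rw [h, ce0_c, mul_one]

theorem RV_cv0 (hw : ∀ i : Fin m, 1 ≤ w i.castSucc)
    (hw' : ∀ i : Fin m, w i.castSucc < w (Fin.last m)) : RV hw (cv0 w) ≠ 0 := by
  rw [RV, Av_cv0]
  refine TV_diag _ _ (fun i j h => ?_) (fun i => ?_) _ fun i => ?_
  · have h1 : ((i : ℕ) : ℤ) + 1 = ((j : ℕ) : ℤ) + 1 := h
    exact Fin.ext (by omega)
  · have : (0 : ℤ) ≤ ((i : ℕ) : ℤ) := Int.natCast_nonneg _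
    omega
  · rw [zv_cv0]
    have := hw' i
    exact_mod_cast (show w (Fin.last m) - w i.castSucc ≠ 0 by omega)

/-- the generic polynomial -/
noncomputable def GRV (hw : ∀ i : Fin m, 1 ≤ w i.castSucc) : MvPolynomial (VIdx m w) ℤ :=
  RV hw X

theorem aeval_GRV {S : Type*} [CommRing S] (hw : ∀ i : Fin m, 1 ≤ w i.castSucc)
    (c : VIdx m w → S) : aeval c (GRV hw) = RV hw c := by
  have h := map_RV ((aeval c : MvPolynomial (VIdx m w) ℤ →ₐ[ℤ] S) :
    MvPolynomial (VIdx m w) ℤ →+* S) hw X
  have h2 : ∀ k, ((aeval c : MvPolynomial (VIdx m w) ℤ →ₐ[ℤ] S) :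
    MvPolynomial (VIdx m w) ℤ →+* S) (X k) = c k := fun k => aeval_X c k
  simp only [h2] at h
  exact h

theorem GRV_ne_zero (hw : ∀ i : Fin m, 1 ≤ w i.castSucc)
    (hw' : ∀ i : Fin m, w i.castSucc < w (Fin.last m)) : GRV hw ≠ 0 := by
  intro h
  have h1 := aeval_GRV hw (cv0 w)
  rw [h, map_zero] at h1
  exact RV_cv0 hw hw' h1.symm

/-- The generic condition holds for most arrays modulo `p`. -/
theorem vbad3 (hw : ∀ i : Fin m, 1 ≤ w i.castSucc)
    (hw' : ∀ i : Fin m, w i.castSucc < w (Fin.last m)) :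
    ∃ C : ℕ, ∀ (p : ℕ) [Fact p.Prime],
      {c : VIdx m w → ZMod p | RV hw c = 0}.ncard * p ≤ C * p ^ Fintype.card (VIdx m w) := by
  obtain ⟨C, hC⟩ := Pool.Agent.Helper26.GG.count_J (GRV hw) (GRV_ne_zero hw hw')
  refine ⟨C, fun p hp => ?_⟩
  have h := hC p
  simp only [aeval_GRV] at h
  exact h

end Pool.Agent.Helper87.DV
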