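import Pool.Agent.Helper87.DV.Dom
import Pool.Agent.Helper87.DV.Density
import Pool.Agent.Helper52.DV.Counts
import Pool.Agent.Helper86.DV.Finite
import Pool.Agent.Helper87.MQ.Down
import Pool.Agent.Helper87.MQ.FieldEmb

/-!
# One hundred percent of the maps with an arbitrary degree vector whose maximum is attained once
-/

set_option autoImplicit false

namespace Pool.Agent.Helper87.DV

open MvPolynomial
open Pool.Agent.Helper26.DV
open Pool.Agent.Helper86.MQ (pm)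
open Pool.Agent.Helper87.MQ (toC toQp exists_down exists_field_emb)
open Pool.Agent.Helper87.DMLP (primesFor not_summable_primesFor prime_of_mem_primesFor)

variable {m : ℕ} {w : Fin (m + 1) → ℕ}

/-- The exceptional residues. -/
theorem exists_BB (hw : ∀ i : Fin m, 1 ≤ w i.castSucc)
    (hw' : ∀ i : Fin m, w i.castSucc < w (Fin.last m)) (hd : 2 ≤ w (Fin.last m)) :
    ∃ C : ℕ, ∀ (q : ℕ) [Fact q.Prime], ∃ BB : Finset (VIdx m w → ZMod q),
      BB.card * q ≤ C * q ^ Fintype.card (VIdx m w) ∧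
      ∀ c ∉ BB, V1 c ∧ V2 c ∧ RV hw c ≠ 0 := by
  classical
  have hw1 : ∀ i, 1 ≤ w i := by
    intro i
    refine Fin.lastCases (by omega) (fun i => hw i) i
  obtain ⟨C, hC⟩ := vbad3 hw hw'
  refine ⟨(m + 2) + (Pool.Agent.Helper52.DV.topLev w + 1) * (2 * (m + 1)) + C, fun q hq => ?_⟩
  have hfin : ∀ S : Set (VIdx m w → ZMod q), S.Finite := fun S => Set.toFinite S
  have hcard : Fintype.card (VIdx m w → ZMod q) = q ^ Fintype.card (VIdx m w) := by
    rw [Fintype.card_fun, ZMod.card]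
  have h1 := Pool.Agent.Helper52.DV.bad1 (F := ZMod q) hw1
  have h2 := Pool.Agent.Helper52.DV.bad2 (F := ZMod q) hw1
  have h3 := hC q
  rw [hcard, ZMod.card] at h1 h2
  set S : Set (VIdx m w → ZMod q) := {c | ¬ V1 c} ∪ {c | ¬ V2 c} ∪ {c | RV hw c = 0} with hS
  refine ⟨(hfin S).toFinset, ?_, ?_⟩
  · rw [← Set.ncard_eq_toFinset_card S (hfin S)]
    have h4 : S.ncard ≤ {c : VIdx m w → ZMod q | ¬ V1 c}.ncard +
        {c : VIdx m w → ZMod q | ¬ V2 c}.ncard +
        {c : VIdx m w → ZMod q | RV hw c = 0}.ncard :=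
      (Set.ncard_union_le _ _).trans (Nat.add_le_add_right (Set.ncard_union_le _ _) _)
    calc S.ncard * q ≤ _ := Nat.mul_le_mul_right _ h4
      _ ≤ _ := by
          rw [add_mul, add_mul, add_mul, add_mul]
          exact Nat.add_le_add (Nat.add_le_add h1 h2) h3
  · intro c hc
    rw [Set.Finite.mem_toFinset, hS] at hc
    simp only [Set.mem_union, Set.mem_setOf_eq, not_or, not_not] at hc
    exact ⟨hc.1.1, hc.1.2, hc.2⟩

/-- **Main theorem**, with the termination as a hypothesis. -/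
theorem dv_main_of (hw : ∀ i : Fin m, 1 ≤ w i.castSucc)
    (hw' : ∀ i : Fin m, w i.castSucc < w (Fin.last m)) (hd : 2 ≤ w (Fin.last m))
    (hterm : ∀ (q : ℕ) [Fact q.Prime] (Φ : Fin (m + 1) → MvPolynomial (Fin (m + 1)) ℚ_[q]),
      VDom w Φ → ∀ F : MvPolynomial (Fin (m + 1)) ℚ_[q], F ≠ 0 → ∃ k,
        coeff (Finsupp.single (Fin.last m) (((fun G => bind₁ Φ G)^[k] F).totalDegree))
          ((fun G => bind₁ Φ G)^[k] F) ≠ 0)
    (A : Finset ℂ) (ε : ℝ) (hε : 0 < ε) :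
    ∃ K : ℕ, ∀ B : ℕ, K ≤ B → (vbox m w B).Finite ∧
      (1 - ε) * ((vbox m w B).ncard : ℝ) ≤
        (({Φ ∈ vbox m w B |
          ∀ α : Fin (m + 1) → ℂ, (∀ i, α i ∈ Subfield.closure (A : Set ℂ)) →
            ∀ F : MvPolynomial (Fin (m + 1)) ℂ, F ≠ 0 →
              {n | eval ((pm (toC Φ))^[n] α) F = 0}.Finite}).ncard : ℝ) := by
  obtain ⟨C, hC⟩ := exists_BB hw hw' hd
  choose BB hBB hgood using hC
  obtain ⟨P, K, hP, h⟩ := v_density w C (primesFor A) (not_summable_primesFor A)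
    (prime_of_mem_primesFor A) (w (Fin.last m) + 1) ε hε
  refine ⟨K, fun B hB => ?_⟩
  obtain ⟨hfin, hcard⟩ := h BB hBB B hB
  refine ⟨hfin, hcard.trans ?_⟩
  refine Nat.cast_le.2 (Set.ncard_le_ncard ?_ (hfin.subset fun Φ hΦ => hΦ.1))
  rintro Φ ⟨hΦ, q, hq, hF, c, hc, hpre, hred⟩
  refine ⟨hΦ, fun α hα F hF0 => ?_⟩
  obtain ⟨h1, h2, h3⟩ := hgood q c hc
  obtain ⟨_, ⟨e'⟩⟩ := exists_field_emb A q (hP q hq).1
  obtain ⟨G, hG0, -, hG⟩ := exists_down (Subfield.closure (A : Set ℂ)) F hF0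
  have hpd : w (Fin.last m) < q := (hP q hq).2.2
  have hdom : VDom w (toQp q Φ) := vdom_of hw hw' (by omega) hpd hpre hred h3
  have hx := Pool.Agent.Helper86.DV.vtrap (fun i => ⟨hw i, hw' i⟩) hd hpre hred h1 h2
    (fun i => e' ⟨α i, hα i⟩)
  have hG1 : MvPolynomial.map e' G ≠ 0 := fun h0 =>
    hG0 (map_injective e' e'.injective (by rw [h0, map_zero]))
  obtain ⟨k, hk⟩ := hterm q _ hdom _ hG1
  have h4 := Pool.Agent.Helper86.DV.vfinite hw' hd hpre hx k hk
  exact h4.subset fun n hn => hG q e' Φ (fun i => ⟨α i, hα i⟩) n hn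

end Pool.Agent.Helper87.DV
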